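import Mathlib

/-!
# Borel-Caratheodory and three circles (job TX-CIRCLES)
-/

set_option autoImplicit false

namespace Pool.Agent.TH979.TX

open Complex MeasureTheory Set Filter Topology

theorem t_circles {r1 r2 r3 : ℝ} (h1 : 0 < r1) (h12 : r1 < r2) (h23 : r2 < r3) {M1 : ℝ}
    (hM1 : 1 ≤ M1) :
    ∃ C θ : ℝ, 0 < C ∧ 0 < θ ∧ θ < 1 ∧ ∀ (h : ℂ → ℂ) (z0 : ℂ) (M : ℝ), 1 ≤ M →
      (∀ z ∈ Metric.closedBall z0 r3, DifferentiableAt ℂ h z) →
      (∀ z ∈ Metric.closedBall z0 r3, (h z).re ≤ M) →
      (∀ z ∈ Metric.closedBall z0 r1, ‖h z‖ ≤ M1) →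
      ∀ z ∈ Metric.closedBall z0 r2, ‖h z‖ ≤ C * M ^ θ := by
  set r' : ℝ := (r2 + r3) / 2 with hr'
  have hr2' : r2 < r' := by rw [hr']; linarith
  have hr3' : r' < r3 := by rw [hr']; linarith
  have hr1' : r1 < r' := h12.trans hr2'
  have hr'0 : 0 < r' := h1.trans hr1'
  have h30 : 0 < r3 := hr'0.trans hr3'
  have h20 : 0 < r2 := h1.trans h12
  set D : ℝ := r3 - r' with hD
  have hD0 : 0 < D := by rw [hD]; linarith
  set C' : ℝ := 2 * r' / D + M1 * (r3 + r') / D with hC'
  have hC'1 : 1 ≤ C' := by
    have a1 : 0 ≤ 2 * r' / D := by positivity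
    have a2 : 1 ≤ M1 * (r3 + r') / D := by
      rw [le_div_iff₀ hD0]
      nlinarith
    linarith
  have hlog : 0 < Real.log r' - Real.log r1 := by
    have := Real.log_lt_log h1 hr1'
    linarith
  set θ : ℝ := (Real.log r2 - Real.log r1) / (Real.log r' - Real.log r1) with hθ
  have hθ0 : 0 < θ := by
    have := Real.log_lt_log h1 h12
    apply div_pos _ hlog
    linarith
  have hθ1 : θ < 1 := by
    rw [hθ, div_lt_one hlog]
    have := Real.log_lt_log h20 hr2'
    linarith
  refine ⟨M1 * C', θ, by positivity, hθ0, hθ1, ?_⟩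
  intro h z0 M hM hdiff hre hsmall
  have hM0 : 0 < M := by linarith
  -- Borel-Caratheodory
  have hBC : ∀ z ∈ Metric.closedBall z0 r', ‖h z‖ ≤ C' * M := by
    intro z hz
    rw [mem_closedBall_iff_norm] at hz
    have hz' : z - z0 ∈ Metric.ball (0 : ℂ) r3 := by
      rw [mem_ball_zero_iff]
      linarith
    have hd : DifferentiableOn ℂ (fun w => h (z0 + w)) (Metric.ball 0 r3) := by
      intro w hw
      apply DifferentiableAt.differentiableWithinAt
      have hw' : z0 + w ∈ Metric.closedBall z0 r3 := by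
        rw [mem_closedBall_iff_norm]
        rw [mem_ball_zero_iff] at hw
        simpa using hw.le
      exact (hdiff _ hw').comp w (by fun_prop)
    have hmaps : Set.MapsTo (fun w => h (z0 + w)) (Metric.ball 0 r3) {z | z.re ≤ M} := by
      intro w hw
      have hw' : z0 + w ∈ Metric.closedBall z0 r3 := by
        rw [mem_closedBall_iff_norm]
        rw [mem_ball_zero_iff] at hw
        simpa using hw.le
      exact hre _ hw'
    have key := Complex.borelCaratheodory hM0 hd hmaps h30 hz'
    simp only [add_sub_cancel, add_zero] at key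
    have h0 : ‖h z0‖ ≤ M1 := hsmall z0 (Metric.mem_closedBall_self h1.le)
    have hDz : D ≤ r3 - ‖z - z0‖ := by rw [hD]; linarith
    have e1 : 2 * M * ‖z - z0‖ / (r3 - ‖z - z0‖) ≤ 2 * M * r' / D := by
      gcongr
    have e2 : ‖h z0‖ * (r3 + ‖z - z0‖) / (r3 - ‖z - z0‖) ≤ M1 * (r3 + r') / D := by
      gcongr
    have e3 : M1 * (r3 + r') / D ≤ M1 * (r3 + r') / D * M := by
      have : 0 ≤ M1 * (r3 + r') / D := by positivity
      nlinarith
    calc ‖h z‖ ≤ _ := key
      _ ≤ 2 * M * r' / D + M1 * (r3 + r') / D * M := by linarith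
      _ = C' * M := by rw [hC']; ring
  have hCM : 1 ≤ C' * M := by nlinarith
  have hMθ : 1 ≤ M ^ θ := Real.one_le_rpow hM hθ0.le
  intro z hz
  rw [mem_closedBall_iff_norm] at hz
  rcases le_or_gt ‖z - z0‖ r1 with hle | hgt
  · have a1 := hsmall z (by rw [mem_closedBall_iff_norm]; exact hle)
    calc ‖h z‖ ≤ M1 := a1
      _ ≤ M1 * C' := by nlinarith
      _ ≤ M1 * C' * M ^ θ := by
        have : 0 ≤ M1 * C' := by positivity
        nlinarith
  · -- three circles
    have hzne : z - z0 ≠ 0 := by
      intro h0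
      rw [h0, norm_zero] at hgt
      linarith
    set w : ℂ := Complex.log (z - z0) with hw
    have hexp : Complex.exp w = z - z0 := Complex.exp_log hzne
    have hwre : w.re = Real.log ‖z - z0‖ := Complex.log_re _
    set l : ℝ := Real.log r1 with hl
    set u : ℝ := Real.log r' with hu
    have hlu : l < u := by linarith
    have hwl : l ≤ w.re := by
      rw [hwre]
      exact Real.log_le_log h1 hgt.le
    have hw2 : w.re ≤ Real.log r2 := by
      rw [hwre]
      exact Real.log_le_log (h1.trans hgt) hz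
    have hwu : w.re ≤ u := hw2.trans (Real.log_le_log h20 hr2'.le)
    have hnorm : ∀ v : ℂ, ∀ r : ℝ, 0 < r → v.re ≤ Real.log r →
        z0 + Complex.exp v ∈ Metric.closedBall z0 r := by
      intro v r hr hv
      rw [mem_closedBall_iff_norm, add_sub_cancel_left, Complex.norm_exp]
      calc Real.exp v.re ≤ Real.exp (Real.log r) := Real.exp_le_exp.mpr hv
        _ = r := Real.exp_log hr
    have hstrip : ∀ v ∈ HadamardThreeLines.verticalClosedStrip l u, v.re ≤ Real.log r' :=
      fun v hv => hv.2
    have hd : DiffContOnCl ℂ (fun v => h (z0 + Complex.exp v))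
        (HadamardThreeLines.verticalStrip l u) := by
      apply DifferentiableOn.diffContOnCl
      intro v hv
      apply DifferentiableAt.differentiableWithinAt
      have hcl : closure (HadamardThreeLines.verticalStrip l u) ⊆
          HadamardThreeLines.verticalClosedStrip l u := by
        apply closure_minimal
        · exact preimage_mono Ioo_subset_Icc_self
        · exact isClosed_Icc.preimage Complex.continuous_re
      have hv' := hstrip v (hcl hv)
      have hmem : z0 + Complex.exp v ∈ Metric.closedBall z0 r3 :=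
        Metric.closedBall_subset_closedBall hr3'.le (hnorm v r' hr'0 hv')
      exact (hdiff _ hmem).comp v (by fun_prop)
    have hB : BddAbove ((norm ∘ fun v => h (z0 + Complex.exp v)) ''
        HadamardThreeLines.verticalClosedStrip l u) := by
      refine ⟨C' * M, ?_⟩
      rintro _ ⟨v, hv, rfl⟩
      exact hBC _ (hnorm v r' hr'0 (hstrip v hv))
    have ha : ∀ v ∈ re ⁻¹' {l}, ‖(fun v => h (z0 + Complex.exp v)) v‖ ≤ M1 := by
      intro v hv
      exact hsmall _ (hnorm v r1 h1 (le_of_eq hv))
    have hb : ∀ v ∈ re ⁻¹' {u}, ‖(fun v => h (z0 + Complex.exp v)) v‖ ≤ C' * M := by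
      intro v hv
      exact hBC _ (hnorm v r' hr'0 (le_of_eq hv))
    have key := HadamardThreeLines.norm_le_interp_of_mem_verticalClosedStrip' hlu
      (z := w) ⟨hwl, hwu⟩ hd hB ha hb
    have hval : h (z0 + Complex.exp w) = h z := by
      rw [hexp, add_sub_cancel]
    rw [hval] at key
    set lam : ℝ := (w.re - l) / (u - l) with hlam
    have hlam0 : 0 ≤ lam := div_nonneg (by linarith) (by linarith)
    have hlamθ : lam ≤ θ := by
      rw [hlam, hθ]
      exact div_le_div_of_nonneg_right (by linarith) hlog.le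
    have b1 : M1 ^ (1 - lam) ≤ M1 := by
      calc M1 ^ (1 - lam) ≤ M1 ^ (1 : ℝ) :=
            Real.rpow_le_rpow_of_exponent_le hM1 (by linarith)
        _ = M1 := Real.rpow_one M1
    have b2 : (C' * M) ^ lam ≤ C' * M ^ θ := by
      calc (C' * M) ^ lam ≤ (C' * M) ^ θ := Real.rpow_le_rpow_of_exponent_le hCM hlamθ
        _ = C' ^ θ * M ^ θ := Real.mul_rpow (by linarith) hM0.le
        _ ≤ C' ^ (1 : ℝ) * M ^ θ := by
          have := Real.rpow_le_rpow_of_exponent_le hC'1 hθ1.le
          exact mul_le_mul_of_nonneg_right this (by positivity)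
        _ = C' * M ^ θ := by rw [Real.rpow_one]
    calc ‖h z‖ ≤ M1 ^ (1 - lam) * (C' * M) ^ lam := key
      _ ≤ M1 * (C' * M ^ θ) := by
        apply mul_le_mul b1 b2 (by positivity) (by linarith)
      _ = M1 * C' * M ^ θ := by ring

end Pool.Agent.TH979.TX
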